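import Mathlib

/-!
Renormings which fail the `(-1)`-ball covering property: the minimal weak-star compact set.
-/

set_option autoImplicit false

namespace Pool.Agent.NH64.BCP

open Set Topology

section core

variable {X : Type*} [NormedAddCommGroup X] [NormedSpace ℝ X] {Γ : Type*} (e : Γ → X)

/-- families of signs -/
def Sgn (Γ : Type*) : Set (Γ → ℝ) := {t | ∀ γ, t γ = 1 ∨ t γ = -1}

/-- evaluation of a functional on the family `e` -/
noncomputable def ev (f : WeakDual ℝ X) : Γ → ℝ := fun γ => f (e γ)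

lemma ev_cont : Continuous (ev e) :=
  continuous_pi fun γ => WeakDual.eval_continuous (e γ)

theorem exists_minimal (D : Set (WeakDual ℝ X)) (hD : IsCompact D)
    (hS : Sgn Γ ⊆ ev e '' D) :
    ∃ D0 ⊆ D, IsCompact D0 ∧ Sgn Γ ⊆ ev e '' D0 ∧
      ∀ K ⊆ D0, IsCompact K → Sgn Γ ⊆ ev e '' K → D0 ⊆ K := by
  let S : Set (Set (WeakDual ℝ X)) := {K | IsCompact K ∧ Sgn Γ ⊆ ev e '' K}
  obtain ⟨D0, hD0, hmin⟩ := zorn_superset_nonempty S (by
    intro c hc hchain hne
    refine ⟨⋂₀ c, ⟨?_, ?_⟩, fun s hs => sInter_subset_of_mem hs⟩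
    · obtain ⟨K, hK⟩ := hne
      exact (hc hK).1.of_isClosed_subset (isClosed_sInter fun s hs => (hc hs).1.isClosed)
        (sInter_subset_of_mem hK)
    · intro t ht
      let c' : Set (Set (WeakDual ℝ X)) := (fun K => K ∩ ev e ⁻¹' {t}) '' c
      have hne' : Nonempty c' := by
        obtain ⟨K, hK⟩ := hne
        exact ⟨⟨_, K, hK, rfl⟩⟩
      have h1 : (⋂₀ c').Nonempty := by
        apply IsCompact.nonempty_sInter_of_directed_nonempty_isCompact_isClosed
        · rintro _ ⟨K, hK, rfl⟩ _ ⟨L, hL, rfl⟩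
          rcases hchain.total hK hL with h | h
          · exact ⟨_, ⟨K, hK, rfl⟩, subset_rfl, inter_subset_inter_left _ h⟩
          · exact ⟨_, ⟨L, hL, rfl⟩, inter_subset_inter_left _ h, subset_rfl⟩
        · rintro _ ⟨K, hK, rfl⟩
          obtain ⟨f, hf, hft⟩ := (hc hK).2 ht
          exact ⟨f, hf, hft⟩
        · rintro _ ⟨K, hK, rfl⟩
          exact (hc hK).1.inter_right (isClosed_singleton.preimage (ev_cont e))
        · rintro _ ⟨K, hK, rfl⟩
          exact (hc hK).1.isClosed.inter (isClosed_singleton.preimage (ev_cont e))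
      obtain ⟨f, hf⟩ := h1
      obtain ⟨K, hK⟩ := hne
      refine ⟨f, ?_, ?_⟩
      · intro L hL
        exact (hf _ ⟨L, hL, rfl⟩).1
      · exact (hf _ ⟨K, hK, rfl⟩).2) D ⟨hD, hS⟩
  refine ⟨D0, hD0, hmin.prop.1, hmin.prop.2, fun K hK h1 h2 => ?_⟩
  exact hmin.le_of_le ⟨h1, h2⟩ hK

/-- in a minimal set the signs of all but finitely many coordinates can be prescribed -/
theorem flip (D0 : Set (WeakDual ℝ X)) (hD0 : IsCompact D0) (hne : D0.Nonempty)
    (hS : Sgn Γ ⊆ ev e '' D0)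
    (hmin : ∀ K ⊆ D0, IsCompact K → Sgn Γ ⊆ ev e '' K → D0 ⊆ K)
    (y : X) (ε : ℝ) (hε : 0 < ε) :
    ∃ F : Finset Γ, ∀ j ∉ F, ∀ s : ℝ, (s = 1 ∨ s = -1) →
      ∃ f ∈ D0, (∀ g ∈ D0, g y - ε < f y) ∧ f (e j) = s := by
  classical
  have hcy : Continuous fun f : WeakDual ℝ X => f y := WeakDual.eval_continuous y
  obtain ⟨f0, hf0, hmax⟩ := hD0.exists_isMaxOn hne hcy.continuousOn
  let K : Set (WeakDual ℝ X) := D0 ∩ {f | f y ≤ f0 y - ε}
  have hK : IsCompact K := hD0.inter_right (isClosed_le hcy continuous_const)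
  have hnot : ¬ Sgn Γ ⊆ ev e '' K := by
    intro h
    have := hmin K inter_subset_left hK h hf0
    have h2 : f0 y ≤ f0 y - ε := this.2
    linarith
  obtain ⟨t, ht, htK⟩ := not_subset.1 hnot
  have hopen : IsOpen (ev e '' K)ᶜ := (hK.image (ev_cont e)).isClosed.isOpen_compl
  obtain ⟨F, u, hu, hsub⟩ := isOpen_pi_iff.1 hopen t htK
  refine ⟨F, fun j hj s hs => ?_⟩
  have h1 : Function.update t j s ∈ Sgn Γ := by
    intro γ
    by_cases h : γ = j
    · subst h; simpa using hs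
    · simpa [Function.update_of_ne h] using ht γ
  have h2 : Function.update t j s ∈ (ev e '' K)ᶜ := by
    apply hsub
    intro a ha
    have haj : a ≠ j := by
      rintro rfl; exact hj ha
    rw [Function.update_of_ne haj]
    exact (hu a ha).2
  obtain ⟨f, hf, hft⟩ := hS h1
  refine ⟨f, hf, fun g hg => ?_, ?_⟩
  · by_contra hcon
    apply h2
    refine ⟨f, ⟨hf, ?_⟩, hft⟩
    have h3 : g y ≤ f0 y := hmax hg
    change f y ≤ f0 y - ε
    linarith
  · have := congrFun hft j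
    simpa [ev] using this

end core

end Pool.Agent.NH64.BCP
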