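import Pool.Agent.NH64.SeqDisc
import Pool.Agent.NH99.AL.All

/-!
# Star discrepancy with respect to a measure which has a local Hölder density
-/

set_option autoImplicit false

namespace Pool.Agent.NH64.MeasDisc

open MeasureTheory Filter Topology
open Pool.Agent.NH99.AL
open Pool.Agent.TH973.SD (locD)
open Pool.Agent.NH64.SeqDisc (g g_tendsto one_le_log)

variable {d N : ℕ}

/-- the signed error -/
noncomputable def nu (μ : Measure (Fin d → ℝ)) (x : Fin N → Fin d → ℝ) (S : Set (Fin d → ℝ)) : ℝ :=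
  (({n : Fin N | x n ∈ S}.ncard : ℕ) : ℝ) / N - (μ S).toReal

theorem nu_diff (μ : Measure (Fin d → ℝ)) [IsProbabilityMeasure μ] (x : Fin N → Fin d → ℝ)
    {S T : Set (Fin d → ℝ)} (hT : MeasurableSet T) (hTS : T ⊆ S) :
    nu μ x (S \ T) = nu μ x S - nu μ x T := by
  unfold nu
  have h1 : (μ (S \ T)).toReal = (μ S).toReal - (μ T).toReal := by
    rw [measure_sdiff hTS hT.nullMeasurableSet (measure_ne_top μ T),
      ENNReal.toReal_sub_of_le (measure_mono hTS) (measure_ne_top μ S)]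
  have h4 : {n : Fin N | x n ∈ T} ⊆ {n : Fin N | x n ∈ S} := fun n hn => hTS hn
  have h2 : (({n : Fin N | x n ∈ S \ T}.ncard : ℕ) : ℝ) =
      (({n : Fin N | x n ∈ S}.ncard : ℕ) : ℝ) - (({n : Fin N | x n ∈ T}.ncard : ℕ) : ℝ) := by
    have h3 : {n : Fin N | x n ∈ S \ T} = {n : Fin N | x n ∈ S} \ {n : Fin N | x n ∈ T} := rfl
    rw [h3, Set.ncard_sdiff h4, Nat.cast_sub (Set.ncard_le_ncard h4)]
  rw [h1, h2]
  ring

/-- intermediate boxes -/
def BB (a : Fin d → ℝ) (S : Finset (Fin d)) (z : Fin d → ℝ) : Set (Fin d → ℝ) :=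
  {x | (∀ i, 0 ≤ x i ∧ x i ≤ z i) ∧ ∀ i ∈ S, a i < x i}

theorem BB_meas (a : Fin d → ℝ) (S : Finset (Fin d)) (z : Fin d → ℝ) :
    MeasurableSet (BB a S z) := by
  have h1 : BB a S z = (⋂ i, ({x : Fin d → ℝ | 0 ≤ x i} ∩ {x | x i ≤ z i})) ∩
      ⋂ i ∈ S, {x : Fin d → ℝ | a i < x i} := by
    ext x
    simp [BB]
  rw [h1]
  refine MeasurableSet.inter (MeasurableSet.iInter fun i => MeasurableSet.inter ?_ ?_)
    (MeasurableSet.biInter (Finset.countable_toSet S) fun i _ => ?_)
  · exact measurableSet_le measurable_const (measurable_pi_apply i)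
  · exact measurableSet_le (measurable_pi_apply i) measurable_const
  · exact measurableSet_lt measurable_const (measurable_pi_apply i)

theorem box_bound (μ : Measure (Fin d → ℝ)) [IsProbabilityMeasure μ] (x : Fin N → Fin d → ℝ)
    (a : Fin d → ℝ) (ha : ∀ i, 0 ≤ a i) (D : ℝ)
    (hD : ∀ y ∈ Set.Icc (0 : Fin d → ℝ) 1, |nu μ x (Set.Icc 0 y)| ≤ D) (S : Finset (Fin d)) :
    ∀ z : Fin d → ℝ, (∀ i, a i ≤ z i ∧ z i ≤ 1) → |nu μ x (BB a S z)| ≤ 2 ^ S.card * D := by
  classical
  induction S using Finset.induction_on with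
  | empty =>
    intro z hz
    have h1 : BB a ∅ z = Set.Icc 0 z := by
      ext x
      simp only [BB, Finset.notMem_empty, false_imp_iff, implies_true, and_true,
        Set.mem_ofPred_eq, Set.mem_Icc, Pi.le_def, Pi.zero_apply]
      exact ⟨fun h => ⟨fun i => (h i).1, fun i => (h i).2⟩, fun h i => ⟨h.1 i, h.2 i⟩⟩
    rw [h1, Finset.card_empty, pow_zero, one_mul]
    exact hD z ⟨fun i => (ha i).trans (hz i).1, fun i => (hz i).2⟩
  | insert j S hj ih =>
    intro z hz
    have hz' : ∀ i, a i ≤ Function.update z j (a j) i ∧ Function.update z j (a j) i ≤ 1 := by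
      intro i
      by_cases hij : i = j
      · subst hij
        rw [Function.update_self]
        exact ⟨le_rfl, (hz i).1.trans (hz i).2⟩
      · rw [Function.update_of_ne hij]
        exact hz i
    have h1 : BB a (insert j S) z = BB a S z \ BB a S (Function.update z j (a j)) := by
      ext x
      simp only [BB, Set.mem_ofPred_eq, Set.mem_sdiff, Finset.mem_insert]
      constructor
      · rintro ⟨h1, h2⟩
        refine ⟨⟨h1, fun i hi => h2 i (Or.inr hi)⟩, fun h3 => ?_⟩
        have h4 := (h3.1 j).2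
        rw [Function.update_self] at h4
        exact absurd (h2 j (Or.inl rfl)) (not_lt.2 h4)
      · rintro ⟨⟨h1, h2⟩, h3⟩
        refine ⟨h1, fun i hi => ?_⟩
        rcases hi with rfl | hi
        · by_contra h4
          rw [not_lt] at h4
          refine h3 ⟨fun k => ⟨(h1 k).1, ?_⟩, h2⟩
          by_cases hk : k = i
          · subst hk
            rw [Function.update_self]
            exact h4
          · rw [Function.update_of_ne hk]
            exact (h1 k).2
        · exact h2 i hi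
    have h2 : BB a S (Function.update z j (a j)) ⊆ BB a S z := by
      rintro x ⟨h3, h4⟩
      refine ⟨fun i => ⟨(h3 i).1, (h3 i).2.trans ?_⟩, h4⟩
      by_cases hij : i = j
      · subst hij
        rw [Function.update_self]
        exact (hz i).1
      · rw [Function.update_of_ne hij]
    rw [h1, nu_diff μ x (BB_meas a S _) h2, Finset.card_insert_of_notMem hj, pow_succ]
    have h5 := ih z hz
    have h6 := ih _ hz'
    calc |nu μ x (BB a S z) - nu μ x (BB a S (Function.update z j (a j)))|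
        ≤ |nu μ x (BB a S z)| + |nu μ x (BB a S (Function.update z j (a j)))| := abs_sub _ _
      _ ≤ 2 ^ S.card * D + 2 ^ S.card * D := add_le_add h5 h6
      _ = 2 ^ S.card * 2 * D := by ring

/-- the measure of the subsets of the small cube -/
theorem meas_bound (μ : Measure (Fin d → ℝ)) [IsProbabilityMeasure μ] (a : Fin d → ℝ) (δ L α : ℝ)
    (f : (Fin d → ℝ) → ℝ) (hα : 0 < α) (hL : 0 ≤ L) (hfa : 0 < f a)
    (hf : ∀ x ∈ Set.Icc a (a + fun _ => δ), |f x - f a| ≤ L * ‖x - a‖ ^ α)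
    (hμ : μ.restrict (Set.Icc a (a + fun _ => δ)) =
      (volume.restrict (Set.Icc a (a + fun _ => δ))).withDensity fun x => ENNReal.ofReal (f x))
    {η : ℝ} (hη : 0 < η) (hηδ : η ≤ δ) {S : Set (Fin d → ℝ)} (hS : MeasurableSet S)
    (hSη : S ⊆ Set.Icc a (a + fun _ => η)) :
    |(μ S).toReal - f a * (volume S).toReal| ≤ L * η ^ α * (volume S).toReal := by
  have hsub : Set.Icc a (a + fun _ => η) ⊆ Set.Icc a (a + fun _ => δ) := by
    refine Set.Icc_subset_Icc_right fun i => ?_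
    simp only [Pi.add_apply]
    linarith
  have hSδ := hSη.trans hsub
  have hvol : volume S ≠ ⊤ := by
    refine ne_top_of_le_ne_top ?_ (measure_mono hSη)
    exact (isCompact_Icc.measure_lt_top).ne
  have h1 : μ S = ∫⁻ x in S, ENNReal.ofReal (f x) := by
    have h2 : μ S = μ.restrict (Set.Icc a (a + fun _ => δ)) S := by
      rw [Measure.restrict_apply hS, Set.inter_eq_left.2 hSδ]
    rw [h2, hμ, withDensity_apply _ hS, Measure.restrict_restrict hS, Set.inter_eq_left.2 hSδ]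
  have hb : ∀ x ∈ S, |f x - f a| ≤ L * η ^ α := by
    intro x hx
    refine (hf x (hSδ hx)).trans (mul_le_mul_of_nonneg_left ?_ hL)
    refine Real.rpow_le_rpow (norm_nonneg _) ?_ hα.le
    rw [pi_norm_le_iff_of_nonneg hη.le]
    intro i
    have h3 := (hSη hx).1 i
    have h4 := (hSη hx).2 i
    simp only [Pi.add_apply] at h4
    rw [Pi.sub_apply, Real.norm_eq_abs, abs_of_nonneg (by linarith)]
    linarith
  have hub : μ S ≤ ENNReal.ofReal (f a + L * η ^ α) * volume S := by
    rw [h1, ← setLIntegral_const]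
    refine setLIntegral_mono' hS fun x hx => ENNReal.ofReal_le_ofReal ?_
    have := (abs_le.1 (hb x hx)).2
    linarith
  have hlb : ENNReal.ofReal (f a - L * η ^ α) * volume S ≤ μ S := by
    rw [h1, ← setLIntegral_const]
    refine setLIntegral_mono' hS fun x hx => ENNReal.ofReal_le_ofReal ?_
    have := (abs_le.1 (hb x hx)).1
    linarith
  have hLη : 0 ≤ L * η ^ α := by positivity
  have hub' : (μ S).toReal ≤ (f a + L * η ^ α) * (volume S).toReal := by
    have h5 := ENNReal.toReal_mono (ENNReal.mul_ne_top ENNReal.ofReal_ne_top hvol) hub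
    rwa [ENNReal.toReal_mul, ENNReal.toReal_ofReal (by linarith)] at h5
  have hlb' : (f a - L * η ^ α) * (volume S).toReal ≤ (μ S).toReal := by
    have h5 := ENNReal.toReal_mono (measure_ne_top μ S) hlb
    rw [ENNReal.toReal_mul] at h5
    refine le_trans (mul_le_mul_of_nonneg_right ?_ ENNReal.toReal_nonneg) h5
    rw [ENNReal.toReal_ofReal']
    exact le_max_left _ _
  rw [abs_le]
  constructor <;> linarith

/-- the half-open box `∏ (a i, a i + η y i]` -/
def hb (a : Fin d → ℝ) (η : ℝ) (y : Fin d → ℝ) : Set (Fin d → ℝ) :=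
  {x | ∀ i, a i < x i ∧ x i ≤ a i + η * y i}

theorem hb_pi (a : Fin d → ℝ) (η : ℝ) (y : Fin d → ℝ) :
    hb a η y = Set.pi Set.univ fun i => Set.Ioc (a i) (a i + η * y i) := by
  ext x
  simp [hb]

theorem hb_meas (a : Fin d → ℝ) (η : ℝ) (y : Fin d → ℝ) : MeasurableSet (hb a η y) := by
  rw [hb_pi]
  exact MeasurableSet.univ_pi fun i => measurableSet_Ioc

theorem hb_vol (a : Fin d → ℝ) {η : ℝ} (hη : 0 < η) {y : Fin d → ℝ} (hy : ∀ i, 0 ≤ y i) :
    (volume (hb a η y)).toReal = η ^ d * ∏ i, y i := by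
  rw [hb_pi, Real.volume_pi_Ioc_toReal]
  · have h1 : ∀ i ∈ (Finset.univ : Finset (Fin d)), a i + η * y i - a i = η * y i := by
      intro i _
      ring
    rw [Finset.prod_congr rfl h1, Finset.prod_mul_distrib, Finset.prod_const, Finset.card_univ,
      Fintype.card_fin]
  · intro i
    have := mul_nonneg hη.le (hy i)
    simp only
    linarith

theorem hb_sub (a : Fin d → ℝ) {η : ℝ} (hη : 0 < η) {y : Fin d → ℝ} (hy : ∀ i, y i ≤ 1) :
    hb a η y ⊆ Set.Icc a (a + fun _ => η) := by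
  intro x hx
  refine ⟨fun i => (hx i).1.le, fun i => (hx i).2.trans ?_⟩
  simp only [Pi.add_apply]
  have := mul_le_mul_of_nonneg_left (hy i) hη.le
  linarith

theorem hb_BB (a : Fin d → ℝ) (ha : ∀ i, 0 ≤ a i) (η : ℝ) (y : Fin d → ℝ) :
    hb a η y = BB a Finset.univ (fun i => a i + η * y i) := by
  ext x
  constructor
  · intro h
    exact ⟨fun i => ⟨(ha i).trans (h i).1.le, (h i).2⟩, fun i _ => (h i).1⟩
  · rintro ⟨h1, h2⟩ i
    exact ⟨h2 i (Finset.mem_univ _), (h1 i).2⟩

/-- the number of points in the small boxes -/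
theorem count_bound (μ : Measure (Fin d → ℝ)) [IsProbabilityMeasure μ] (x : Fin N → Fin d → ℝ)
    (hN : 0 < N) (a : Fin d → ℝ) (δ L α : ℝ) (ha : ∀ i, 0 ≤ a i ∧ a i + δ ≤ 1)
    (f : (Fin d → ℝ) → ℝ) (hα : 0 < α) (hL : 0 ≤ L) (hfa : 0 < f a)
    (hf : ∀ x ∈ Set.Icc a (a + fun _ => δ), |f x - f a| ≤ L * ‖x - a‖ ^ α)
    (hμ : μ.restrict (Set.Icc a (a + fun _ => δ)) =
      (volume.restrict (Set.Icc a (a + fun _ => δ))).withDensity fun x => ENNReal.ofReal (f x))
    {η : ℝ} (hη : 0 < η) (hηδ : η ≤ δ) (hNη : N * (η ^ α * η ^ d) = 1) (D : ℝ)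
    (hD : ∀ y ∈ Set.Icc (0 : Fin d → ℝ) 1, |nu μ x (Set.Icc 0 y)| ≤ D)
    (y : Fin d → ℝ) (hy : ∀ i, 0 ≤ y i ∧ y i ≤ 1) :
    |(({n : Fin N | x n ∈ hb a η y}.ncard : ℕ) : ℝ) - f a * N * η ^ d * ∏ i, y i| ≤
      N * (2 ^ d * D) + L := by
  have hN0 : (0 : ℝ) < N := by exact_mod_cast hN
  have h1 := box_bound μ x a (fun i => (ha i).1) D hD Finset.univ (fun i => a i + η * y i) (by
    intro i
    have h2 := mul_nonneg hη.le (hy i).1
    have h3 := mul_le_mul_of_nonneg_left (hy i).2 hη.le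
    have h4 := (ha i).2
    constructor <;> linarith)
  rw [← hb_BB a (fun i => (ha i).1), Finset.card_fin] at h1
  have h2 := meas_bound μ a δ L α f hα hL hfa hf hμ hη hηδ (hb_meas a η y)
    (hb_sub a hη fun i => (hy i).2)
  rw [hb_vol a hη fun i => (hy i).1] at h2
  have hp0 : 0 ≤ ∏ i, y i := Finset.prod_nonneg fun i _ => (hy i).1
  have hp1 : ∏ i, y i ≤ 1 := Finset.prod_le_one (fun i _ => (hy i).1) fun i _ => (hy i).2
  have h3 : L * η ^ α * (η ^ d * ∏ i, y i) ≤ L * (η ^ α * η ^ d) := by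
    have h4 : 0 ≤ L * (η ^ α * η ^ d) := by positivity
    calc L * η ^ α * (η ^ d * ∏ i, y i) = L * (η ^ α * η ^ d) * ∏ i, y i := by ring
      _ ≤ L * (η ^ α * η ^ d) * 1 := mul_le_mul_of_nonneg_left hp1 h4
      _ = L * (η ^ α * η ^ d) := mul_one _
  have h5 : (({n : Fin N | x n ∈ hb a η y}.ncard : ℕ) : ℝ) - f a * N * η ^ d * ∏ i, y i =
      N * nu μ x (hb a η y) + N * ((μ (hb a η y)).toReal - f a * (η ^ d * ∏ i, y i)) := by
    unfold nu
    field_simp
    ring
  rw [h5]
  calc |N * nu μ x (hb a η y) + N * ((μ (hb a η y)).toReal - f a * (η ^ d * ∏ i, y i))|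
      ≤ |N * nu μ x (hb a η y)| + |N * ((μ (hb a η y)).toReal - f a * (η ^ d * ∏ i, y i))| :=
        abs_add_le _ _
    _ = N * |nu μ x (hb a η y)| + N * |(μ (hb a η y)).toReal - f a * (η ^ d * ∏ i, y i)| := by
        rw [abs_mul, abs_mul, abs_of_pos hN0]
    _ ≤ N * (2 ^ d * D) + N * (L * (η ^ α * η ^ d)) := by
        refine add_le_add (mul_le_mul_of_nonneg_left h1 hN0.le)
          (mul_le_mul_of_nonneg_left (h2.trans h3) hN0.le)
    _ = N * (2 ^ d * D) + L := by
        rw [show (N : ℝ) * (L * (η ^ α * η ^ d)) = L * (N * (η ^ α * η ^ d)) by ring, hNη, mul_one]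

/-- a box with a large local error -/
theorem large (x : Fin N → Fin d → ℝ) (a : Fin d → ℝ) {η : ℝ} (hη : 0 < η) (v M : ℝ) (hv : 0 < v)
    (hM : 0 < M)
    (H : ∀ (lam : Fin ({n : Fin N | x n ∈ hb a η 1}.ncard) → ℝ)
      (ξ : Fin ({n : Fin N | x n ∈ hb a η 1}.ncard) → Fin d → ℝ),
      (∀ μ, ξ μ ∈ Set.Icc (0 : Fin d → ℝ) 1) → ENNReal.ofReal v ≤
        eLpNorm (locD lam ξ) ⊤ (volume.restrict (Set.Icc (0 : Fin d → ℝ) 1))) :
    ∃ y : Fin d → ℝ, (∀ i, 0 ≤ y i ∧ y i ≤ 1) ∧
      M * v / 2 ≤ |(({n : Fin N | x n ∈ hb a η y}.ncard : ℕ) : ℝ) - M * ∏ i, y i| := by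
  classical
  set P : Finset (Fin N) := Finset.univ.filter (fun n => x n ∈ hb a η 1) with hP
  have hcard : {n : Fin N | x n ∈ hb a η 1}.ncard = P.card := by
    rw [← Set.ncard_coe_finset, hP]
    congr 1
    ext n
    simp
  rw [hcard] at H
  let ξ : Fin P.card → Fin d → ℝ := fun j i => (x ((P.equivFin.symm j : P) : Fin N) i - a i) / η
  have hmem : ∀ j : Fin P.card, x ((P.equivFin.symm j : P) : Fin N) ∈ hb a η 1 := by
    intro j
    exact (Finset.mem_filter.1 (P.equivFin.symm j).2).2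
  have hξ : ∀ j, ξ j ∈ Set.Icc (0 : Fin d → ℝ) 1 := by
    intro j
    constructor
    · intro i
      have h1 := (hmem j i).1
      show 0 ≤ (x ((P.equivFin.symm j : P) : Fin N) i - a i) / η
      exact div_nonneg (by linarith) hη.le
    · intro i
      have h1 := (hmem j i).2
      rw [Pi.one_apply, mul_one] at h1
      show (x ((P.equivFin.symm j : P) : Fin N) i - a i) / η ≤ 1
      rw [div_le_one hη]
      linarith
  have h1 := H (fun _ => 1 / M) ξ hξ
  obtain ⟨y, hy, hyv⟩ : ∃ y ∈ Set.Icc (0 : Fin d → ℝ) 1,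
      v / 2 < |locD (fun _ => 1 / M) ξ y| := by
    by_contra hno
    push Not at hno
    have h2 : eLpNorm (locD (fun _ => 1 / M) ξ) ⊤
        (volume.restrict (Set.Icc (0 : Fin d → ℝ) 1)) ≤ ENNReal.ofReal (v / 2) := by
      rw [eLpNorm_exponent_top]
      refine eLpNormEssSup_le_of_ae_bound ?_
      rw [ae_restrict_iff' measurableSet_Icc]
      exact Eventually.of_forall fun y hy => hno y hy
    have h3 := h1.trans h2
    rw [ENNReal.ofReal_le_ofReal_iff (by linarith)] at h3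
    linarith
  refine ⟨y, fun i => ⟨hy.1 i, hy.2 i⟩, ?_⟩
  have hiff : ∀ j : Fin P.card, ξ j ∈ Set.Icc (0 : Fin d → ℝ) y ↔
      x ((P.equivFin.symm j : P) : Fin N) ∈ hb a η y := by
    intro j
    constructor
    · intro h i
      refine ⟨(hmem j i).1, ?_⟩
      have h2 : (x ((P.equivFin.symm j : P) : Fin N) i - a i) / η ≤ y i := h.2 i
      rw [div_le_iff₀ hη] at h2
      linarith
    · intro h
      refine ⟨(hξ j).1, fun i => ?_⟩
      show (x ((P.equivFin.symm j : P) : Fin N) i - a i) / η ≤ y i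
      rw [div_le_iff₀ hη]
      have := (h i).2
      linarith
  have hsum : ∑ j : Fin P.card, (1 / M) *
      (Set.Icc (0 : Fin d → ℝ) y).indicator (fun _ => (1 : ℝ)) (ξ j) =
      (1 / M) * (({n : Fin N | x n ∈ hb a η y}.ncard : ℕ) : ℝ) := by
    rw [← Finset.mul_sum]
    congr 1
    have h2 : ∀ j : Fin P.card, (Set.Icc (0 : Fin d → ℝ) y).indicator (fun _ => (1 : ℝ)) (ξ j) =
        (fun n : Fin N => if x n ∈ hb a η y then (1 : ℝ) else 0)
          ((P.equivFin.symm j : P) : Fin N) := by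
      intro j
      rw [Set.indicator_apply]
      exact if_congr (hiff j) rfl rfl
    rw [Finset.sum_congr rfl fun j _ => h2 j,
      Equiv.sum_comp P.equivFin.symm
        (fun n : P => (fun n : Fin N => if x n ∈ hb a η y then (1 : ℝ) else 0) (n : Fin N)),
      Finset.sum_coe_sort P (fun n : Fin N => if x n ∈ hb a η y then (1 : ℝ) else 0),
      Finset.sum_boole]
    congr 1
    rw [← Set.ncard_coe_finset]
    congr 1
    ext n
    simp only [Finset.coe_filter, hP, Finset.mem_filter, Finset.mem_univ, true_and,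
      Set.mem_ofPred_eq, and_iff_right_iff_imp]
    intro h i
    refine ⟨(h i).1, (h i).2.trans ?_⟩
    have := mul_le_mul_of_nonneg_left (hy.2 i) hη.le
    linarith
  have hloc : locD (fun _ => 1 / M) ξ y =
      ∏ i, y i - (1 / M) * (({n : Fin N | x n ∈ hb a η y}.ncard : ℕ) : ℝ) := by
    rw [← hsum]
    rfl
  rw [hloc] at hyv
  have h6 : (({n : Fin N | x n ∈ hb a η y}.ncard : ℕ) : ℝ) - M * ∏ i, y i =
      -(M * (∏ i, y i - (1 / M) * (({n : Fin N | x n ∈ hb a η y}.ncard : ℕ) : ℝ))) := by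
    field_simp
    ring
  rw [h6, abs_neg, abs_mul, abs_of_pos hM]
  nlinarith [mul_le_mul_of_nonneg_left hyv.le hM.le]

end Pool.Agent.NH64.MeasDisc
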