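import Pool.Agent.NH64.MeasDisc

/-!
# Star discrepancy with respect to a measure which has a local Hölder density: the lower bound
-/

set_option autoImplicit false

namespace Pool.Agent.NH64.MeasDisc

open MeasureTheory Filter Topology
open Pool.Agent.NH99.AL
open Pool.Agent.TH973.SD (locD)
open Pool.Agent.NH64.SeqDisc (g g_tendsto one_le_log)

theorem g_le {a : ℝ} {A : ℕ} {N : ℕ} (hN : 3 ≤ N) : g a A N ≤ (Real.log N) ^ a := by
  have h1 := one_le_log hN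
  have h2 := Real.log_nonneg h1
  unfold g
  refine div_le_self (by positivity) (one_le_pow₀ ?_)
  linarith

theorem g_comp {a κ : ℝ} {A N m : ℕ} (ha : 0 ≤ a) (hκ : 0 < κ) (hm3 : 3 ≤ m) (hmN : m ≤ N)
    (hm : (N : ℝ) ^ κ ≤ m) : κ ^ a * g a A N ≤ g a A m := by
  have h1 := one_le_log hm3
  have h1' := Real.log_nonneg h1
  have hN3 : 3 ≤ N := hm3.trans hmN
  have h2 := one_le_log hN3
  have h2' := Real.log_nonneg h2
  have hN0 : (0 : ℝ) < N := by
    have : 0 < N := by omega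
    exact_mod_cast this
  have h3 : κ * Real.log N ≤ Real.log m := by
    rw [← Real.log_rpow hN0]
    exact Real.log_le_log (by positivity) hm
  have h4 : Real.log m ≤ Real.log N :=
    Real.log_le_log (by positivity) (by exact_mod_cast hmN)
  have h5 : Real.log (Real.log m) ≤ Real.log (Real.log N) := Real.log_le_log (by linarith) h4
  unfold g
  rw [← mul_div_assoc, ← Real.mul_rpow hκ.le (by linarith)]
  refine div_le_div₀ (by positivity) (Real.rpow_le_rpow (by positivity) h3 ha) (by positivity) ?_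
  exact pow_le_pow_left₀ (by linarith) (by linarith) A

/-- the lower bound -/
theorem main (d : ℕ) (hd : 3 ≤ d) : ∃ A : ℕ, ∀ α : ℝ, 0 < α → ∃ c : ℝ, 0 < c ∧
    ∀ (μ : Measure (Fin d → ℝ)) [IsProbabilityMeasure μ] (a : Fin d → ℝ) (δ L : ℝ)
    (f : (Fin d → ℝ) → ℝ), 0 < δ → (∀ i, 0 ≤ a i ∧ a i + δ ≤ 1) → 0 ≤ L → 0 < f a →
    (∀ x ∈ Set.Icc a (a + fun _ => δ), |f x - f a| ≤ L * ‖x - a‖ ^ α) →
    μ.restrict (Set.Icc a (a + fun _ => δ)) =
      (volume.restrict (Set.Icc a (a + fun _ => δ))).withDensity (fun x => ENNReal.ofReal (f x)) →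
    ∃ N₀ : ℕ, 3 ≤ N₀ ∧ ∀ N : ℕ, N₀ ≤ N → ∀ (x : Fin N → Fin d → ℝ) (D : ℝ),
      (∀ y ∈ Set.Icc (0 : Fin d → ℝ) 1, |nu μ x (Set.Icc 0 y)| ≤ D) →
        c * g ((d : ℝ) / 2) A N ≤ N * D := by
  obtain ⟨c₀, hc₀, A, H⟩ := all_FINL d hd
  refine ⟨A, fun α hα => ?_⟩
  have hd0 : (0 : ℝ) < d := by
    have : 0 < d := by omega
    exact_mod_cast this
  obtain ⟨κ, hκ⟩ : ∃ κ, κ = α / (2 * (α + d)) := ⟨_, rfl⟩
  have hκ0 : 0 < κ := by
    rw [hκ]
    positivity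
  obtain ⟨c₁, hc₁⟩ : ∃ c₁, c₁ = min 1 (c₀ / 4 * κ ^ ((d : ℝ) / 2)) := ⟨_, rfl⟩
  have hc₁0 : 0 < c₁ := by
    rw [hc₁]
    exact lt_min one_pos (by positivity)
  have hc₁1 : c₁ ≤ 1 := by
    rw [hc₁]
    exact min_le_left _ _
  have hc₁2 : c₁ ≤ c₀ / 4 * κ ^ ((d : ℝ) / 2) := by
    rw [hc₁]
    exact min_le_right _ _
  refine ⟨c₁ / (2 * 2 ^ d), by positivity, ?_⟩
  intro μ _ a δ L f hδ ha hL hfa hf hμ
  -- the conditions on `N`
  have hκt : Tendsto (fun N : ℕ => (N : ℝ) ^ κ) atTop atTop :=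
    (tendsto_rpow_atTop hκ0).comp tendsto_natCast_atTop_atTop
  have e1 : ∀ᶠ N : ℕ in atTop, (N : ℝ) ^ (-(1 / (α + d))) ≤ δ := by
    have h1 : Tendsto (fun N : ℕ => (N : ℝ) ^ (-(1 / (α + d)))) atTop (𝓝 0) :=
      (tendsto_rpow_neg_atTop (by positivity)).comp tendsto_natCast_atTop_atTop
    exact (h1.eventually (gt_mem_nhds hδ)).mono fun N h => h.le
  have e2 : ∀ᶠ N : ℕ in atTop, (3 : ℝ) ≤ (N : ℝ) ^ κ := hκt.eventually_ge_atTop 3
  have e3 : ∀ᶠ N : ℕ in atTop, 2 / f a ≤ (N : ℝ) ^ κ := hκt.eventually_ge_atTop _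
  have e4 : ∀ᶠ N : ℕ in atTop, (Real.log N) ^ ((d : ℝ) / 2) ≤ (N : ℝ) ^ κ := by
    have h1 := isLittleO_log_rpow_rpow_atTop ((d : ℝ) / 2) hκ0
    have h2 := h1.bound (c := 1) one_pos
    have h3 := tendsto_natCast_atTop_atTop (R := ℝ) |>.eventually h2
    filter_upwards [h3, eventually_ge_atTop 3] with N h4 h5
    have h6 := one_le_log h5
    rw [one_mul, Real.norm_of_nonneg (by positivity), Real.norm_of_nonneg (by positivity)] at h4
    exact h4
  have e5 : ∀ᶠ N : ℕ in atTop, 2 * L / c₁ ≤ g ((d : ℝ) / 2) A N :=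
    (g_tendsto (by positivity) A).eventually_ge_atTop _
  obtain ⟨N₁, hN₁⟩ := eventually_atTop.1 (e1.and (e2.and (e3.and (e4.and e5))))
  refine ⟨max N₁ 3, le_max_right _ _, ?_⟩
  intro N hN x D hD
  obtain ⟨g1, g2, g3, g4, g5⟩ := hN₁ N ((le_max_left _ _).trans hN)
  have hN3 : 3 ≤ N := (le_max_right _ _).trans hN
  have hNpos : 0 < N := by omega
  have hN0 : (0 : ℝ) < N := by exact_mod_cast hNpos
  have hgN := g_le (a := (d : ℝ) / 2) (A := A) hN3
  obtain ⟨η, hη⟩ : ∃ η, η = (N : ℝ) ^ (-(1 / (α + d))) := ⟨_, rfl⟩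
  rw [← hη] at g1
  have hη0 : 0 < η := by
    rw [hη]
    positivity
  have hαd : α + d ≠ 0 := by positivity
  have hNη : (N : ℝ) * (η ^ α * η ^ d) = 1 := by
    rw [← Real.rpow_natCast η d, ← Real.rpow_add hη0, hη, ← Real.rpow_mul hN0.le]
    have h1 : -(1 / (α + d)) * (α + d) = -1 := by field_simp
    rw [h1, Real.rpow_neg_one]
    field_simp
  have hMη : (N : ℝ) * η ^ d = (N : ℝ) ^ κ * (N : ℝ) ^ κ := by
    rw [← Real.rpow_natCast η d, hη, ← Real.rpow_mul hN0.le, ← Real.rpow_add hN0]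
    nth_rewrite 1 [← Real.rpow_one (N : ℝ)]
    rw [← Real.rpow_add hN0, hκ]
    congr 1
    field_simp
    ring
  obtain ⟨M, hM⟩ : ∃ M, M = f a * N * η ^ d := ⟨_, rfl⟩
  have hM2 : (N : ℝ) ^ κ ≤ M / 2 := by
    have h1 : M / 2 = (f a / 2 * (N : ℝ) ^ κ) * (N : ℝ) ^ κ := by
      rw [hM, mul_assoc, hMη]
      ring
    have h2 : 1 ≤ f a / 2 * (N : ℝ) ^ κ := by
      rw [div_le_iff₀ hfa] at g3
      linarith
    rw [h1]
    nlinarith
  have hM0 : 0 < M := by linarith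
  obtain ⟨W, hW⟩ : ∃ W, W = (N : ℝ) * (2 ^ d * D) + L := ⟨_, rfl⟩
  have hcb := count_bound μ x hNpos a δ L α ha f hα hL hfa hf hμ hη0 g1 hNη D hD
  rw [← hW, ← hM] at hcb
  have hmain : c₁ * g ((d : ℝ) / 2) A N ≤ W := by
    have hgN0 : 0 ≤ g ((d : ℝ) / 2) A N := by
      have h1 := one_le_log hN3
      have h2 := Real.log_nonneg h1
      unfold g
      positivity
    have hcase : M / 2 ≤ W → c₁ * g ((d : ℝ) / 2) A N ≤ W := by
      intro h
      nlinarith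
    obtain ⟨m, hm⟩ : ∃ m, m = {n : Fin N | x n ∈ hb a η 1}.ncard := ⟨_, rfl⟩
    have h1 := hcb 1 (fun i => ⟨zero_le_one, le_rfl⟩)
    rw [← hm] at h1
    simp only [Pi.one_apply, Finset.prod_const_one, mul_one] at h1
    rw [abs_le] at h1
    by_cases hlow : (m : ℝ) < M / 2
    · exact hcase (by linarith)
    by_cases hhigh : 2 * M < (m : ℝ)
    · exact hcase (by linarith)
    rw [not_lt] at hlow hhigh
    have hm3' : (3 : ℝ) ≤ m := by linarith
    have hm3 : 3 ≤ m := by exact_mod_cast hm3'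
    have hmN : m ≤ N := by
      rw [hm]
      refine (Set.ncard_le_ncard (Set.subset_univ _)).trans ?_
      rw [Set.ncard_univ, Nat.card_fin]
    have hm0 : (0 : ℝ) < m := by linarith
    have hL1 := one_le_log hm3
    have hL2 := Real.log_nonneg hL1
    have hL0 : 0 < Real.log m := by linarith
    obtain ⟨v, hv⟩ : ∃ v, v = c₀ * g ((d : ℝ) / 2) A m / m := ⟨_, rfl⟩
    have hg0 : 0 < g ((d : ℝ) / 2) A m := by
      unfold g
      positivity
    have hv0 : 0 < v := by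
      rw [hv]
      positivity
    have hkey : ∀ (lam : Fin m → ℝ) (ξ : Fin m → Fin d → ℝ),
        (∀ μ, ξ μ ∈ Set.Icc (0 : Fin d → ℝ) 1) → ENNReal.ofReal v ≤
          eLpNorm (locD lam ξ) ⊤ (volume.restrict (Set.Icc (0 : Fin d → ℝ) 1)) := by
      intro lam ξ hξ
      have h2 := H m hm3 ⊤ le_top lam ξ hξ
      rw [ENNReal.top_rpow_of_pos (by norm_num), top_inf_eq,
        ← ENNReal.ofReal_mul (by positivity)] at h2
      refine le_trans (le_of_eq ?_) h2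
      congr 1
      rw [hv]
      unfold g
      have h3 : (Real.log m) ^ ((d : ℝ) / 2) =
          (Real.log m) ^ (((d : ℝ) - 1) / 2) * (Real.log m) ^ (1 / 2 : ℝ) := by
        rw [← Real.rpow_add hL0]
        congr 1
        ring
      rw [h3]
      field_simp
    rw [hm] at hkey
    obtain ⟨y, hy, hyv⟩ := large x a hη0 v M hv0 hM0 hkey
    have h2 := hyv.trans (hcb y hy)
    have h3 : c₀ / 4 * g ((d : ℝ) / 2) A m ≤ M * v / 2 := by
      rw [hv, ← mul_div_assoc, div_div, le_div_iff₀ (by positivity)]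
      nlinarith [mul_pos hc₀ hg0]
    have h4 := g_comp (a := (d : ℝ) / 2) (A := A) (by positivity) hκ0 hm3 hmN
      (hM2.trans hlow)
    calc c₁ * g ((d : ℝ) / 2) A N ≤ c₀ / 4 * κ ^ ((d : ℝ) / 2) * g ((d : ℝ) / 2) A N :=
          mul_le_mul_of_nonneg_right hc₁2 hgN0
      _ = c₀ / 4 * (κ ^ ((d : ℝ) / 2) * g ((d : ℝ) / 2) A N) := by ring
      _ ≤ c₀ / 4 * g ((d : ℝ) / 2) A m := mul_le_mul_of_nonneg_left h4 (by positivity)
      _ ≤ W := h3.trans h2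
  have h5 : L ≤ c₁ / 2 * g ((d : ℝ) / 2) A N := by
    rw [div_le_iff₀ hc₁0] at g5
    linarith
  rw [hW] at hmain
  have h6 : c₁ / 2 * g ((d : ℝ) / 2) A N ≤ 2 ^ d * (N * D) := by linarith
  have h7 : c₁ / (2 * 2 ^ d) * g ((d : ℝ) / 2) A N =
      (c₁ / 2 * g ((d : ℝ) / 2) A N) / 2 ^ d := by
    field_simp
  rw [h7, div_le_iff₀ (by positivity)]
  linarith

/-- the star discrepancy -/
noncomputable def starDisc {d N : ℕ} (μ : Measure (Fin d → ℝ)) (x : Fin N → Fin d → ℝ) : ℝ :=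
  sSup {r : ℝ | ∃ y ∈ Set.Icc (0 : Fin d → ℝ) 1,
    r = |(({n : Fin N | x n ∈ Set.Icc 0 y}.ncard : ℕ) : ℝ) / N - (μ (Set.Icc 0 y)).toReal|}

theorem le_starDisc {d N : ℕ} (μ : Measure (Fin d → ℝ)) [IsProbabilityMeasure μ]
    (x : Fin N → Fin d → ℝ) (y : Fin d → ℝ) (hy : y ∈ Set.Icc (0 : Fin d → ℝ) 1) :
    |nu μ x (Set.Icc 0 y)| ≤ starDisc μ x := by
  refine le_csSup ⟨1, ?_⟩ ⟨y, hy, rfl⟩
  rintro r ⟨z, hz, rfl⟩
  have h1 : (0 : ℝ) ≤ (({n : Fin N | x n ∈ Set.Icc 0 z}.ncard : ℕ) : ℝ) / N := by positivity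
  have h2 : (({n : Fin N | x n ∈ Set.Icc 0 z}.ncard : ℕ) : ℝ) / N ≤ 1 := by
    rcases Nat.eq_zero_or_pos N with h | h
    · subst h
      simp
    · rw [div_le_one (by exact_mod_cast h)]
      have h3 : {n : Fin N | x n ∈ Set.Icc 0 z}.ncard ≤ N := by
        refine (Set.ncard_le_ncard (Set.subset_univ _)).trans ?_
        rw [Set.ncard_univ, Nat.card_fin]
      exact_mod_cast h3
  have h3 : (0 : ℝ) ≤ (μ (Set.Icc 0 z)).toReal := ENNReal.toReal_nonneg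
  have h4 : (μ (Set.Icc 0 z)).toReal ≤ 1 := by
    have := ENNReal.toReal_mono ENNReal.one_ne_top (prob_le_one (μ := μ) (s := Set.Icc 0 z))
    simpa using this
  rw [abs_le]
  constructor <;> linarith

end Pool.Agent.NH64.MeasDisc
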