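import Pool.Agent.NH99.AL.Stm

/-!
# From the star discrepancy of point sets in dimension `s + 1` to sequences in dimension `s`
-/

set_option autoImplicit false

namespace Pool.Agent.NH64.SeqDisc

open MeasureTheory Filter Topology
open Pool.Agent.NH99.AL
open Pool.Agent.TH973.SD (locD)

/-! ## Growth -/

theorem log_pow_le {a : ℝ} (ha : 0 < a) (A : ℕ) :
    ∃ C : ℝ, 1 ≤ C ∧ ∀ r : ℝ, 1 ≤ r → (1 + Real.log r) ^ A ≤ C * r ^ a := by
  obtain ⟨ε, hε⟩ : ∃ ε, ε = a / (A + 1) := ⟨_, rfl⟩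
  have hA : (0 : ℝ) < (A : ℝ) + 1 := by positivity
  have hε0 : 0 < ε := by
    rw [hε]
    positivity
  have h1 : (1 : ℝ) ≤ 1 + 1 / ε := by
    have : 0 < 1 / ε := by positivity
    linarith
  refine ⟨(1 + 1 / ε) ^ A, one_le_pow₀ h1, fun r hr => ?_⟩
  have hr0 : 0 ≤ r := by linarith
  have h2 : Real.log r ≤ r ^ ε / ε := Real.log_le_rpow_div hr0 hε0
  have h3 : 1 ≤ r ^ ε := Real.one_le_rpow hr hε0.le
  have h4 : 1 + Real.log r ≤ (1 + 1 / ε) * r ^ ε := by
    have : (1 + 1 / ε) * r ^ ε = r ^ ε + r ^ ε / ε := by ring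
    rw [this]
    linarith
  have h5 : 0 ≤ 1 + Real.log r := by
    have := Real.log_nonneg hr
    linarith
  calc (1 + Real.log r) ^ A ≤ ((1 + 1 / ε) * r ^ ε) ^ A := pow_le_pow_left₀ h5 h4 A
    _ = (1 + 1 / ε) ^ A * r ^ (ε * A) := by
      rw [mul_pow, ← Real.rpow_natCast (r ^ ε) A, ← Real.rpow_mul hr0]
    _ ≤ (1 + 1 / ε) ^ A * r ^ a := by
      refine mul_le_mul_of_nonneg_left (Real.rpow_le_rpow_of_exponent_le hr ?_) (by positivity)
      rw [hε, div_mul_eq_mul_div, div_le_iff₀ hA]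
      nlinarith

/-- the growth function -/
noncomputable def g (a : ℝ) (A : ℕ) (m : ℕ) : ℝ :=
  (Real.log m) ^ a / (1 + Real.log (Real.log m)) ^ A

theorem one_le_log {m : ℕ} (hm : 3 ≤ m) : 1 ≤ Real.log m := by
  have hm3 : (3 : ℝ) ≤ m := by exact_mod_cast hm
  rw [Real.le_log_iff_exp_le (by linarith)]
  have h1 : Real.exp 1 < 3 := lt_trans Real.exp_one_lt_d9 (by norm_num)
  linarith

theorem g_mono {a : ℝ} (ha : 0 < a) (A : ℕ) :
    ∃ C : ℝ, 1 ≤ C ∧ ∀ k m : ℕ, 3 ≤ k → k ≤ m → g a A k ≤ C * g a A m := by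
  obtain ⟨C, hC, h⟩ := log_pow_le ha A
  refine ⟨C, hC, fun k m hk hkm => ?_⟩
  have h1 : 1 ≤ Real.log k := one_le_log hk
  have h2 : Real.log k ≤ Real.log m :=
    Real.log_le_log (by positivity) (by exact_mod_cast hkm)
  unfold g
  set L₁ := Real.log k
  set L₂ := Real.log m
  have hL1 : 0 < L₁ := by linarith
  have hL2 : 0 < L₂ := by linarith
  have hr : 1 ≤ L₂ / L₁ := by
    rw [le_div_iff₀ hL1]
    linarith
  have h3 := h _ hr
  have h4 : Real.log L₂ = Real.log L₁ + Real.log (L₂ / L₁) := by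
    rw [← Real.log_mul hL1.ne' (by positivity)]
    congr 1
    field_simp
  have h5 : 0 ≤ Real.log L₁ := Real.log_nonneg h1
  have h6 : 0 ≤ Real.log (L₂ / L₁) := Real.log_nonneg hr
  have h7 : (1 + Real.log L₂) ^ A ≤ (1 + Real.log L₁) ^ A * (1 + Real.log (L₂ / L₁)) ^ A := by
    rw [← mul_pow]
    refine pow_le_pow_left₀ (by linarith) ?_ A
    rw [h4]
    nlinarith
  have h8 : L₂ ^ a = L₁ ^ a * (L₂ / L₁) ^ a := by
    rw [← Real.mul_rpow hL1.le (by positivity)]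
    congr 1
    field_simp
  have h9 : 0 < (1 + Real.log L₁) ^ A := by positivity
  have h10 : 0 < (1 + Real.log L₂) ^ A := by
    have : 0 ≤ Real.log L₂ := Real.log_nonneg (h1.trans h2)
    positivity
  rw [← mul_div_assoc, div_le_div_iff₀ h9 h10]
  have h11 : 0 < L₁ ^ a := by positivity
  calc L₁ ^ a * (1 + Real.log L₂) ^ A
      ≤ L₁ ^ a * ((1 + Real.log L₁) ^ A * (1 + Real.log (L₂ / L₁)) ^ A) :=
        mul_le_mul_of_nonneg_left h7 h11.le
    _ ≤ L₁ ^ a * ((1 + Real.log L₁) ^ A * (C * (L₂ / L₁) ^ a)) :=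
        mul_le_mul_of_nonneg_left (mul_le_mul_of_nonneg_left h3 h9.le) h11.le
    _ = C * L₂ ^ a * (1 + Real.log L₁) ^ A := by
      rw [h8]
      ring

theorem g_tendsto {a : ℝ} (ha : 0 < a) (A : ℕ) : Tendsto (g a A) atTop atTop := by
  obtain ⟨C, hC, h⟩ := log_pow_le (half_pos ha) A
  have h1 : Tendsto (fun m : ℕ => (Real.log m) ^ (a / 2) / C) atTop atTop := by
    refine Tendsto.atTop_div_const (by linarith) ?_
    exact (tendsto_rpow_atTop (half_pos ha)).comp (Real.tendsto_log_atTop.comp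
      tendsto_natCast_atTop_atTop)
  refine tendsto_atTop_mono' _ ?_ h1
  filter_upwards [eventually_ge_atTop 3] with m hm
  have h2 := one_le_log hm
  unfold g
  set L := Real.log m
  have h3 := h L h2
  have h4 : 0 ≤ Real.log L := Real.log_nonneg h2
  have hL : 0 < L := by linarith
  rw [div_le_div_iff₀ (by linarith) (by positivity)]
  have h5 : L ^ a = L ^ (a / 2) * L ^ (a / 2) := by
    rw [← Real.rpow_add hL]
    congr 1
    ring
  rw [h5]
  have h6 : 0 ≤ L ^ (a / 2) := by positivity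
  calc L ^ (a / 2) * (1 + Real.log L) ^ A ≤ L ^ (a / 2) * (C * L ^ (a / 2)) :=
      mul_le_mul_of_nonneg_left h3 h6
    _ = L ^ (a / 2) * L ^ (a / 2) * C := by ring

/-! ## Boxes -/

variable {s : ℕ}

/-- number of the `n < N` with `x n` in the box `∏ [a i, b i)` -/
noncomputable def count (x : ℕ → Fin s → ℝ) (N : ℕ) (a b : Fin s → ℝ) : ℕ :=
  Set.ncard {n : ℕ | n < N ∧ ∀ i, a i ≤ x n i ∧ x n i < b i}

theorem count_le (x : ℕ → Fin s → ℝ) (N : ℕ) (a b : Fin s → ℝ) : count x N a b ≤ N := by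
  unfold count
  calc _ ≤ Set.ncard (Set.Iio N) :=
        Set.ncard_le_ncard (fun n hn => hn.1) (Set.finite_Iio N)
    _ = N := by simp

/-- half-open boxes approximate closed boxes -/
theorem approx (x : ℕ → Fin s → ℝ) (hx : ∀ n i, x n i ∈ Set.Ico (0 : ℝ) 1) (k : ℕ) (y : Fin s → ℝ)
    (hy0 : ∀ i, 0 ≤ y i) (hy1 : ∀ i, y i ≤ 1) {δ : ℝ} (hδ : 0 < δ) :
    ∃ b : Fin s → ℝ, (∀ i, 0 < b i ∧ b i ≤ 1) ∧ |∏ i, b i - ∏ i, y i| ≤ δ ∧
      ∀ n < k, (∀ i, x n i < b i) ↔ ∀ i, x n i ≤ y i := by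
  have h1 : Tendsto (fun ε : ℝ => ∏ i, min (y i + ε) 1) (𝓝[>] 0) (𝓝 (∏ i, y i)) := by
    have h2 : Continuous (fun ε : ℝ => ∏ i, min (y i + ε) 1) := by
      refine continuous_finsetProd _ fun i _ => ?_
      exact (continuous_const.add continuous_id).min continuous_const
    have h3 := h2.tendsto 0
    have h4 : ∏ i, min (y i + 0) 1 = ∏ i, y i := by
      refine Finset.prod_congr rfl fun i _ => ?_
      rw [add_zero, min_eq_left (hy1 i)]
    rw [h4] at h3
    exact h3.mono_left nhdsWithin_le_nhds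
  have h2 : ∀ᶠ ε in 𝓝[>] (0 : ℝ), |∏ i, min (y i + ε) 1 - ∏ i, y i| < δ := by
    have := h1 (Metric.ball_mem_nhds _ hδ)
    filter_upwards [this] with ε hε
    exact hε
  have h3 : ∀ n ∈ Finset.range k, ∀ᶠ ε in 𝓝[>] (0 : ℝ), ∀ i, x n i < y i + ε → x n i ≤ y i := by
    intro n _
    rw [eventually_all]
    intro i
    rcases le_or_gt (x n i) (y i) with h | h
    · exact Eventually.of_forall fun _ _ => h
    · have h4 : ∀ᶠ ε in 𝓝[>] (0 : ℝ), ε < x n i - y i :=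
        nhdsWithin_le_nhds (Iio_mem_nhds (by linarith))
      filter_upwards [h4] with ε hε hlt
      linarith
  have h4 : ∀ᶠ ε in 𝓝[>] (0 : ℝ), ∀ n ∈ Finset.range k, ∀ i, x n i < y i + ε → x n i ≤ y i := by
    rw [Filter.eventually_all_finset]
    exact h3
  obtain ⟨ε, hε1, hε2, hε0⟩ := (h2.and (h4.and self_mem_nhdsWithin)).exists
  have hε0' : 0 < ε := hε0
  refine ⟨fun i => min (y i + ε) 1, fun i => ⟨lt_min (by linarith [hy0 i]) one_pos,
    min_le_right _ _⟩, hε1.le, fun n hn => ⟨fun h i => ?_, fun h i => ?_⟩⟩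
  · exact hε2 n (Finset.mem_range.2 hn) i ((h i).trans_le (min_le_left _ _))
  · exact lt_min (by linarith [h i]) (hx n i).2

/-- the transfer -/
theorem transfer (x : ℕ → Fin s → ℝ) (hx : ∀ n i, x n i ∈ Set.Ico (0 : ℝ) 1) (m : ℕ) (hm : 3 ≤ m)
    (v : ℝ) (hv : 0 < v)
    (H : ∀ (lam : Fin m → ℝ) (ξ : Fin m → Fin (s + 1) → ℝ),
      (∀ μ, ξ μ ∈ Set.Icc (0 : Fin (s + 1) → ℝ) 1) → ENNReal.ofReal v ≤
        eLpNorm (locD lam ξ) ⊤ (volume.restrict (Set.Icc (0 : Fin (s + 1) → ℝ) 1))) :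
    ∃ k : ℕ, 1 ≤ k ∧ k ≤ m ∧ ∃ b : Fin s → ℝ, (∀ i, 0 < b i ∧ b i ≤ 1) ∧
      m * v / 2 - 2 ≤ |(count x k 0 b : ℝ) - k * ∏ i, b i| := by
  classical
  have hm0 : (0 : ℝ) < m := by
    have : 0 < m := by omega
    exact_mod_cast this
  let ξ : Fin m → Fin (s + 1) → ℝ := fun μ => Fin.cons ((μ : ℝ) / m) (x μ)
  have hξ : ∀ μ, ξ μ ∈ Set.Icc (0 : Fin (s + 1) → ℝ) 1 := by
    intro μ
    have h1 : ((μ : ℕ) : ℝ) < m := by exact_mod_cast μ.2
    constructor
    · intro j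
      refine Fin.cases ?_ (fun i => ?_) j
      · show (0 : ℝ) ≤ (μ : ℝ) / m
        positivity
      · exact (hx μ i).1
    · intro j
      refine Fin.cases ?_ (fun i => ?_) j
      · show (μ : ℝ) / m ≤ 1
        rw [div_le_one hm0]
        exact h1.le
      · exact (hx μ i).2.le
  have h1 := H (fun _ => 1 / (m : ℝ)) ξ hξ
  -- a point with large local discrepancy
  obtain ⟨y, hy, hyv⟩ : ∃ y ∈ Set.Icc (0 : Fin (s + 1) → ℝ) 1,
      v / 2 < |locD (fun _ => 1 / (m : ℝ)) ξ y| := by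
    by_contra hno
    push Not at hno
    have h2 : eLpNorm (locD (fun _ => 1 / (m : ℝ)) ξ) ⊤
        (volume.restrict (Set.Icc (0 : Fin (s + 1) → ℝ) 1)) ≤ ENNReal.ofReal (v / 2) := by
      rw [eLpNorm_exponent_top]
      refine eLpNormEssSup_le_of_ae_bound ?_
      rw [ae_restrict_iff' measurableSet_Icc]
      exact Eventually.of_forall fun y hy => hno y hy
    have h3 := h1.trans h2
    rw [ENNReal.ofReal_le_ofReal_iff (by linarith)] at h3
    linarith
  set t := y 0 with ht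
  have ht0 : 0 ≤ t := hy.1 0
  have ht1 : t ≤ 1 := hy.2 0
  set y' : Fin s → ℝ := fun i => y i.succ with hy'
  have hy0 : ∀ i, 0 ≤ y' i := fun i => hy.1 i.succ
  have hy1 : ∀ i, y' i ≤ 1 := fun i => hy.2 i.succ
  set k : ℕ := min (⌊t * m⌋₊ + 1) m with hk
  have hk1 : 1 ≤ k := le_min (by omega) (by omega)
  have hkm : k ≤ m := min_le_right _ _
  have htm : 0 ≤ t * m := by positivity
  have hkt : |(k : ℝ) - t * m| ≤ 1 := by
    have h2 := Nat.floor_le htm
    have h3 := Nat.lt_floor_add_one (t * m)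
    rw [abs_le]
    rcases le_total (⌊t * m⌋₊ + 1) m with h | h
    · rw [hk, min_eq_left h]
      push_cast
      constructor <;> linarith
    · rw [hk, min_eq_right h]
      have h4 : (m : ℝ) ≤ ⌊t * m⌋₊ + 1 := by exact_mod_cast h
      have h5 : t * m ≤ 1 * m := mul_le_mul_of_nonneg_right ht1 hm0.le
      constructor <;> linarith
  have hk0 : (0 : ℝ) < k := by exact_mod_cast hk1
  obtain ⟨b, hb1, hb2, hb3⟩ := approx x hx k y' hy0 hy1 (δ := 1 / k) (by positivity)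
  refine ⟨k, hk1, hkm, b, hb1, ?_⟩
  -- the number of points
  have hcount : ∑ μ : Fin m, (1 / (m : ℝ)) *
      (Set.Icc (0 : Fin (s + 1) → ℝ) y).indicator (fun _ => (1 : ℝ)) (ξ μ) =
      (1 / m) * (count x k 0 b : ℝ) := by
    rw [← Finset.mul_sum]
    congr 1
    have h2 : ∀ μ : Fin m, (Set.Icc (0 : Fin (s + 1) → ℝ) y).indicator (fun _ => (1 : ℝ)) (ξ μ) =
        if ((μ : ℕ) < k ∧ ∀ i, (0 : Fin s → ℝ) i ≤ x μ i ∧ x μ i < b i) then 1 else 0 := by
      intro μ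
      rw [Set.indicator_apply]
      refine if_congr ?_ rfl rfl
      have h3 : (μ : ℕ) < k ↔ ((μ : ℕ) : ℝ) / m ≤ t := by
        rw [div_le_iff₀ hm0, ← Nat.le_floor_iff htm, hk, lt_min_iff, Nat.lt_succ_iff]
        exact and_iff_left μ.2
      constructor
      · intro h
        have h4 : ((μ : ℕ) : ℝ) / m ≤ t := h.2 0
        have h5 := h3.2 h4
        exact ⟨h5, fun i => ⟨(hx μ i).1, (hb3 μ h5).2 (fun i => h.2 i.succ) i⟩⟩
      · rintro ⟨h5, h6⟩
        have h7 := (hb3 μ h5).1 fun i => (h6 i).2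
        refine ⟨(hξ μ).1, fun j => ?_⟩
        refine Fin.cases ?_ (fun i => ?_) j
        · exact h3.1 h5
        · exact h7 i
    rw [Finset.sum_congr rfl fun μ _ => h2 μ, Finset.sum_boole]
    congr 1
    unfold count
    rw [← Set.ncard_coe_finset, ← Set.ncard_image_of_injective _ Fin.val_injective]
    congr 1
    ext n
    simp only [Finset.coe_filter, Finset.mem_univ, true_and, Set.mem_image, Set.mem_ofPred_eq]
    constructor
    · rintro ⟨μ, h, rfl⟩
      exact h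
    · intro h
      exact ⟨⟨n, h.1.trans_le hkm⟩, h, rfl⟩
  have hloc : locD (fun _ => 1 / (m : ℝ)) ξ y =
      t * ∏ i, y' i - (1 / m) * (count x k 0 b : ℝ) := by
    rw [← hcount]
    unfold locD
    rw [Fin.prod_univ_succ]
  rw [hloc] at hyv
  set V := ∏ i, y' i with hV
  set W := ∏ i, b i with hW
  set c := (count x k 0 b : ℝ) with hc
  have hV0 : 0 ≤ V := Finset.prod_nonneg fun i _ => hy0 i
  have hV1 : V ≤ 1 := Finset.prod_le_one (fun i _ => hy0 i) fun i _ => hy1 i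
  have h4 : m * v / 2 ≤ |t * m * V - c| := by
    have h5 : t * m * V - c = m * (t * V - (1 / m) * c) := by
      field_simp
    rw [h5, abs_mul, abs_of_pos hm0]
    nlinarith [mul_le_mul_of_nonneg_left hyv.le hm0.le]
  have h5 : |k * W - k * V| ≤ 1 := by
    rw [← mul_sub, abs_mul, abs_of_pos hk0]
    calc (k : ℝ) * |W - V| ≤ k * (1 / k) := mul_le_mul_of_nonneg_left hb2 hk0.le
      _ = 1 := by field_simp
  have h6 : |(k : ℝ) * V - t * m * V| ≤ 1 := by
    rw [← sub_mul, abs_mul, abs_of_nonneg hV0]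
    calc |(k : ℝ) - t * m| * V ≤ 1 * 1 := mul_le_mul hkt hV1 hV0 zero_le_one
      _ = 1 := one_mul 1
  have h7 : t * m * V - c = -((k : ℝ) * V - t * m * V) + (-(k * W - k * V)) + (k * W - c) := by ring
  have h8 : |t * m * V - c| ≤ 1 + 1 + |k * W - c| := by
    rw [h7]
    refine (abs_add_le _ _).trans ?_
    refine add_le_add ((abs_add_le _ _).trans ?_) le_rfl
    rw [abs_neg, abs_neg]
    exact add_le_add h6 h5
  rw [abs_sub_comm]
  linarith

end Pool.Agent.NH64.SeqDisc
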