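import Pool.Agent.NH64.SeqDisc
import Pool.Agent.NH99.AL.All

/-!
# Lower bound for the discrepancy of sequences in `[0,1)^s`
-/

set_option autoImplicit false

namespace Pool.Agent.NH64.SeqDisc

open MeasureTheory Filter Topology
open Pool.Agent.NH99.AL
open Pool.Agent.TH973.SD (locD)

/-- the discrepancy of the first `N` points of the sequence `x`: the supremum over all boxes
`∏ [a i, b i)` with `0 ≤ a i < b i ≤ 1` of `|count / N - volume|` -/
noncomputable def disc {s : ℕ} (x : ℕ → Fin s → ℝ) (N : ℕ) : ℝ :=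
  sSup {r : ℝ | ∃ a b : Fin s → ℝ, (∀ i, 0 ≤ a i ∧ a i < b i ∧ b i ≤ 1) ∧
    r = |(count x N a b : ℝ) / N - ∏ i, (b i - a i)|}

variable {s : ℕ}

theorem disc_bdd (x : ℕ → Fin s → ℝ) (N : ℕ) : ∀ r ∈ {r : ℝ | ∃ a b : Fin s → ℝ,
    (∀ i, 0 ≤ a i ∧ a i < b i ∧ b i ≤ 1) ∧
    r = |(count x N a b : ℝ) / N - ∏ i, (b i - a i)|}, r ≤ 1 := by
  rintro r ⟨a, b, hab, rfl⟩
  have h1 : (0 : ℝ) ≤ (count x N a b : ℝ) / N := by positivity
  have h2 : (count x N a b : ℝ) / N ≤ 1 := by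
    rcases Nat.eq_zero_or_pos N with h | h
    · subst h
      simp
    · rw [div_le_one (by exact_mod_cast h)]
      exact_mod_cast count_le x N a b
  have h3 : (0 : ℝ) ≤ ∏ i, (b i - a i) := Finset.prod_nonneg fun i _ => by
    linarith [(hab i).2.1]
  have h4 : ∏ i, (b i - a i) ≤ (1 : ℝ) := Finset.prod_le_one
    (fun i _ => by linarith [(hab i).2.1]) fun i _ => by linarith [(hab i).1, (hab i).2.2]
  rw [abs_le]
  constructor <;> linarith

theorem le_disc (x : ℕ → Fin s → ℝ) (N : ℕ) {a b : Fin s → ℝ}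
    (hab : ∀ i, 0 ≤ a i ∧ a i < b i ∧ b i ≤ 1) :
    |(count x N a b : ℝ) / N - ∏ i, (b i - a i)| ≤ disc x N :=
  le_csSup ⟨1, disc_bdd x N⟩ ⟨a, b, hab, rfl⟩

theorem disc_le_one (x : ℕ → Fin s → ℝ) (N : ℕ) : disc x N ≤ 1 := by
  refine csSup_le ⟨_, 0, 1, fun i => ⟨le_rfl, one_pos, le_rfl⟩, rfl⟩ (disc_bdd x N)

theorem half_le_disc_one (hs : 1 ≤ s) (x : ℕ → Fin s → ℝ) : 1 / 2 ≤ disc x 1 := by
  classical
  let i₀ : Fin s := ⟨0, hs⟩
  have h1 := le_disc x 1 (a := 0) (b := fun i => if i = i₀ then 1 / 2 else 1) (by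
    intro i
    by_cases hi : i = i₀
    · simp only [hi, if_true, Pi.zero_apply]
      norm_num
    · simp only [hi, if_false, Pi.zero_apply]
      norm_num)
  refine le_trans ?_ h1
  have h2 : ∏ i, ((fun i => if i = i₀ then (1 / 2 : ℝ) else 1) i - (0 : Fin s → ℝ) i) = 1 / 2 := by
    simp only [Pi.zero_apply, sub_zero]
    rw [Finset.prod_ite_eq' Finset.univ i₀ (fun _ => (1 / 2 : ℝ))]
    simp
  rw [h2]
  have h3 := count_le x 1 0 (fun i => if i = i₀ then (1 / 2 : ℝ) else 1)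
  generalize count x 1 0 (fun i => if i = i₀ then (1 / 2 : ℝ) else 1) = n at h3
  interval_cases n
  · norm_num
  · norm_num

theorem g_nonneg (a : ℝ) (A : ℕ) {m : ℕ} (hm : 3 ≤ m) : 0 ≤ g a A m := by
  have h1 := one_le_log hm
  have h2 := Real.log_nonneg h1
  unfold g
  positivity

/-- the bound for all `m` -/
theorem main (s : ℕ) (hs : 2 ≤ s) : ∃ (A : ℕ) (c : ℝ), 0 < c ∧ ∀ x : ℕ → Fin s → ℝ,
    (∀ n i, x n i ∈ Set.Ico (0 : ℝ) 1) → ∀ m : ℕ, 3 ≤ m → ∃ k : ℕ, 1 ≤ k ∧ k ≤ m ∧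
      c * g (((s : ℝ) + 1) / 2) A m ≤ k * disc x k := by
  obtain ⟨c, hc, A, H⟩ := all_FINL (s + 1) (by omega)
  refine ⟨A, c / 16, by positivity, fun x hx m hm => ?_⟩
  have hL := one_le_log hm
  have hLL := Real.log_nonneg hL
  have hm0 : (0 : ℝ) < m := by
    have : 0 < m := by omega
    exact_mod_cast this
  have hL0 : 0 < Real.log m := by linarith
  set v : ℝ := c * g (((s : ℝ) + 1) / 2) A m / m with hv
  have hg : 0 < g (((s : ℝ) + 1) / 2) A m := by
    unfold g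
    positivity
  have hv0 : 0 < v := by positivity
  have hmv : (m : ℝ) * v = c * g (((s : ℝ) + 1) / 2) A m := by
    rw [hv]
    field_simp
  have hkey : ∀ (lam : Fin m → ℝ) (ξ : Fin m → Fin (s + 1) → ℝ),
      (∀ μ, ξ μ ∈ Set.Icc (0 : Fin (s + 1) → ℝ) 1) → ENNReal.ofReal v ≤
        eLpNorm (locD lam ξ) ⊤ (volume.restrict (Set.Icc (0 : Fin (s + 1) → ℝ) 1)) := by
    intro lam ξ hξ
    have h1 := H m hm ⊤ le_top lam ξ hξ
    rw [ENNReal.top_rpow_of_pos (by norm_num), top_inf_eq, ← ENNReal.ofReal_mul (by positivity)]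
      at h1
    refine le_trans (le_of_eq ?_) h1
    congr 1
    rw [hv]
    unfold g
    have h2 : (Real.log m) ^ (((s : ℝ) + 1) / 2) =
        (Real.log m) ^ ((((s + 1 : ℕ) : ℝ) - 1) / 2) * (Real.log m) ^ (1 / 2 : ℝ) := by
      rw [← Real.rpow_add hL0]
      congr 1
      push_cast
      ring
    rw [h2]
    field_simp
  obtain ⟨k, hk1, hkm, b, hb, hbb⟩ := transfer x hx m hm v hv0 hkey
  rw [hmv] at hbb
  rcases le_or_gt 8 (c * g (((s : ℝ) + 1) / 2) A m) with h8 | h8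
  · refine ⟨k, hk1, hkm, ?_⟩
    have hk0 : (0 : ℝ) < k := by exact_mod_cast hk1
    have h3 := le_disc x k (a := 0) (b := b) (fun i => ⟨le_rfl, (hb i).1, (hb i).2⟩)
    have h4 : |(count x k 0 b : ℝ) - k * ∏ i, b i| =
        k * |(count x k 0 b : ℝ) / k - ∏ i, (b i - (0 : Fin s → ℝ) i)| := by
      have h5 : (count x k 0 b : ℝ) - k * ∏ i, b i =
          k * ((count x k 0 b : ℝ) / k - ∏ i, b i) := by
        field_simp
      simp only [Pi.zero_apply, sub_zero]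
      rw [h5, abs_mul, abs_of_pos hk0]
    rw [h4] at hbb
    have h6 := mul_le_mul_of_nonneg_left h3 hk0.le
    linarith
  · refine ⟨1, le_rfl, by omega, ?_⟩
    have h3 := half_le_disc_one (by omega) x
    rw [Nat.cast_one, one_mul]
    linarith

/-- the final form -/
theorem final (s : ℕ) (hs : 2 ≤ s) : ∃ (A : ℕ) (c : ℝ), 0 < c ∧ ∀ x : ℕ → Fin s → ℝ,
    (∀ n i, 0 ≤ x n i ∧ x n i < 1) →
      (∀ m : ℕ, 3 ≤ m → ∃ k : ℕ, 1 ≤ k ∧ k ≤ m ∧ c * ((Real.log m) ^ (((s : ℝ) + 1) / 2) /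
        (1 + Real.log (Real.log m)) ^ A) ≤ k * disc x k) ∧
      {N : ℕ | c * ((Real.log N) ^ (((s : ℝ) + 1) / 2) / (1 + Real.log (Real.log N)) ^ A) ≤
        N * disc x N}.Infinite := by
  obtain ⟨A, c, hc, H⟩ := main s hs
  obtain ⟨C, hC, hmono⟩ := g_mono (a := ((s : ℝ) + 1) / 2) (by positivity) A
  have hC0 : 0 < C := by linarith
  have hcC : c / C ≤ c := div_le_self hc.le hC
  refine ⟨A, c / C, by positivity, fun x hx => ⟨fun m hm => ?_, ?_⟩⟩
  · obtain ⟨k, hk1, hkm, h⟩ := H x (fun n i => hx n i) m hm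
    refine ⟨k, hk1, hkm, le_trans ?_ h⟩
    exact mul_le_mul_of_nonneg_right hcC (g_nonneg _ A hm)
  · refine Set.infinite_of_not_bddAbove ?_
    rintro ⟨B, hB⟩
    have h1 : Tendsto (fun m : ℕ => c * g (((s : ℝ) + 1) / 2) A m) atTop atTop :=
      (g_tendsto (by positivity) A).const_mul_atTop hc
    obtain ⟨m, hm1, hm3⟩ := ((h1.eventually_gt_atTop ((B : ℝ) + 3)).and
      (eventually_ge_atTop 3)).exists
    obtain ⟨k, hk1, hkm, h⟩ := H x (fun n i => hx n i) m hm3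
    have h2 : (k : ℝ) * disc x k ≤ k * 1 :=
      mul_le_mul_of_nonneg_left (disc_le_one x k) (by positivity)
    have h3 : (B : ℝ) + 3 < k := by linarith
    have h4 : B + 3 < k := by exact_mod_cast h3
    have h5 : k ∈ {N : ℕ | c / C * ((Real.log N) ^ (((s : ℝ) + 1) / 2) /
        (1 + Real.log (Real.log N)) ^ A) ≤ N * disc x N} := by
      show c / C * g (((s : ℝ) + 1) / 2) A k ≤ k * disc x k
      refine le_trans ?_ h
      have h6 := hmono k m (by omega) hkm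
      calc c / C * g (((s : ℝ) + 1) / 2) A k ≤ c / C * (C * g (((s : ℝ) + 1) / 2) A m) :=
            mul_le_mul_of_nonneg_left h6 (by positivity)
        _ = c * g (((s : ℝ) + 1) / 2) A m := by field_simp
    have h6 := hB h5
    omega

end Pool.Agent.NH64.SeqDisc
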